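import Mathlib
import Pool.Agent.Helper99.AGU.Final

/-!
# The decay rate of the two-dimensional arboreal gas is exponentially small in `β`

There are constants `a > 0` and `β₀` such that for all `β ≥ β₀` the connection probabilities of the
arboreal gas with parameter `β` on the torus `Λ_L = (ℤ/L)²` satisfy, for every `L` and all `i, j`,

  `P_β [i ↔ j] ≥ exp (- 1/1000 - exp (- a β) |i - j|)`.

Hence `m(β) ≤ exp (- a β)`, and `E |T_i| ≥ exp (a β)` for every `L ≥ exp (a β)`.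
-/

set_option autoImplicit false

namespace Pool.Agent.Results.MP_a51497_pr.ExponentiallySmallMassH99

noncomputable section

/-- The vertices of the torus `Λ_L = (ℤ/L)²`. -/
abbrev Vtx (L : ℕ) := ZMod L × ZMod L

/-- The torus `Λ_L` with its nearest-neighbour edges. -/
def torus (L : ℕ) : SimpleGraph (Vtx L) where
  Adj x y := x ≠ y ∧ ((x.1 = y.1 ∧ (x.2 = y.2 + 1 ∨ y.2 = x.2 + 1)) ∨
    (x.2 = y.2 ∧ (x.1 = y.1 + 1 ∨ y.1 = x.1 + 1)))
  symm := ⟨fun x y h => ⟨h.1.symm, by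
    rcases h.2 with ⟨h1, h2⟩ | ⟨h1, h2⟩
    · exact Or.inl ⟨h1.symm, h2.symm⟩
    · exact Or.inr ⟨h1.symm, h2.symm⟩⟩⟩
  loopless := ⟨fun x h => h.1 rfl⟩

open Classical in
/-- The spanning forests of the torus: the sets of edges which contain no cycle. -/
def forests (L : ℕ) [NeZero L] : Finset (Finset (Sym2 (Vtx L))) :=
  Finset.univ.filter fun F : Finset (Sym2 (Vtx L)) => (F : Set (Sym2 (Vtx L))) ⊆ (torus L).edgeSet ∧
    (SimpleGraph.fromEdgeSet (F : Set (Sym2 (Vtx L)))).IsAcyclic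

/-- The partition function `Z = ∑_F β ^ |F|`. -/
def Z (β : ℝ) (L : ℕ) [NeZero L] : ℝ := ∑ F ∈ forests L, β ^ F.card

open Classical in
/-- The probability that `i` and `j` lie in the same tree of the arboreal gas on `Λ_L`. -/
def conn (β : ℝ) (L : ℕ) [NeZero L] (i j : Vtx L) : ℝ :=
  (∑ F ∈ (forests L).filter (fun F : Finset (Sym2 (Vtx L)) =>
    (SimpleGraph.fromEdgeSet (F : Set (Sym2 (Vtx L)))).Reachable i j), β ^ F.card) / Z β L

/-- The expected number of vertices `E |T_i|` of the tree of `i`. -/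
def treeSize (β : ℝ) (L : ℕ) [NeZero L] (i : Vtx L) : ℝ :=
  (∑ F ∈ forests L, β ^ F.card *
    (Set.ncard {j : Vtx L | (SimpleGraph.fromEdgeSet (F : Set (Sym2 (Vtx L)))).Reachable i j} : ℝ)) /
      Z β L

/-- The decay rate `m(β)`: the supremum of all `c > 0` for which there is `C` with
`P [i ↔ j] ≤ C exp (- c |i - j|)` for all `L`, `i`, `j` (it is `0` if there is no such `c`). -/
def rate (β : ℝ) : ℝ :=
  sSup {c : ℝ | 0 < c ∧ ∃ C : ℝ, ∀ (L : ℕ) [NeZero L] (i j : Vtx L),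
    conn β L i j ≤ C * Real.exp (-(c * ((torus L).dist i j : ℝ)))}

/-- **The decay rate of the two-dimensional arboreal gas is at most exponentially small in `β`.**
There are `a > 0` and `β₀` such that for every `β ≥ β₀`:

* `P [i ↔ j] ≥ exp (- 1/1000 - exp (- a β) |i - j|)` for all `L` and all `i, j ∈ Λ_L`;
* if `P [i ↔ j] ≤ C exp (- c |i - j|)` for all `L, i, j`, then `c ≤ exp (- a β)`;
* `m(β) ≤ exp (- a β)`;
* `E |T_i| ≥ exp (a β)` for all `L ≥ exp (a β)` and all `i ∈ Λ_L`. -/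
theorem result : ∃ a β₀ : ℝ, 0 < a ∧ 0 < β₀ ∧ ∀ β : ℝ, β₀ ≤ β →
    (∀ (L : ℕ) [NeZero L] (i j : Vtx L),
      Real.exp (-(1 / 1000) - Real.exp (-(a * β)) * ((torus L).dist i j : ℝ)) ≤ conn β L i j) ∧
    (∀ c C : ℝ, (∀ (L : ℕ) [NeZero L] (i j : Vtx L),
      conn β L i j ≤ C * Real.exp (-(c * ((torus L).dist i j : ℝ)))) → c ≤ Real.exp (-(a * β))) ∧
    rate β ≤ Real.exp (-(a * β)) ∧
    (∀ (L : ℕ) [NeZero L] (i : Vtx L), Real.exp (a * β) ≤ L →
      Real.exp (a * β) ≤ treeSize β L i) :=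
  Pool.Agent.Helper99.AGU.final

end

end Pool.Agent.Results.MP_a51497_pr.ExponentiallySmallMassH99
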